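import Pool.Agent.N594.NT.Stm2

/-!
# NT/LO (helper704): the norm of Turán's construction
-/

set_option autoImplicit false

open Finset
open scoped Classical

namespace Pool.Agent.N704.NT.LO

open Pool.Agent.N594.NT Pool.Agent.N594.CT Pool.Agent.N442.ES

/-- the degree of a pair with different residues -/
theorem degr_cross {n t k : ℕ} {X : Finset (Fin n)} (hX : X ∈ TC 2 (cm k : Fin n → ℕ))
    (ht : 2 ≤ t) : degr (TC t (cm k : Fin n → ℕ)) X = (n - 2).choose (t - 2) := by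
  obtain ⟨hX1, x, hx, y, hy, hxy⟩ := mem_filter.mp hX
  have hXc := (mem_powersetCard.mp hX1).2
  have h0 := Pool.Agent.N424.CT.FD.card_super t X (by omega)
  rw [hXc] at h0
  rw [← h0]
  unfold degr
  congr 1
  ext e
  simp only [mem_filter, TC]
  constructor
  · rintro ⟨⟨h1, -⟩, h2⟩
    exact ⟨h1, h2⟩
  · rintro ⟨h1, h2⟩
    exact ⟨⟨h1, x, h2 hx, y, h2 hy, hxy⟩, h2⟩

/-- the degree of any pair -/
theorem degr_any {n d k : ℕ} {X : Finset (Fin n)} (hX : X.card = 2) :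
    (n - 2).choose d ≤ degr (TC (d + 2) (cm k : Fin n → ℕ)) X + (n / k + 1).choose d := by
  obtain ⟨x, hx⟩ : X.Nonempty := by rw [← card_pos]; omega
  have h0 := Pool.Agent.N424.CT.FD.card_super (d + 2) X (by omega)
  rw [hX, show d + 2 - 2 = d by omega] at h0
  rw [← h0]
  have h1 : (((univ : Finset (Fin n)).powersetCard (d + 2)).filter fun e => X ⊆ e) ⊆
      ((TC (d + 2) (cm k : Fin n → ℕ)).filter fun e => X ⊆ e) ∪
      ((univ : Finset (Fin n)).powersetCard (d + 2)).filter fun e => X ⊆ e ∧ ∀ v ∈ e,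
        cm k v = cm k x := by
    intro e he
    obtain ⟨h2, h3⟩ := mem_filter.mp he
    by_cases h4 : ∃ u ∈ e, ∃ v ∈ e, (cm k u : ℕ) ≠ cm k v
    · exact mem_union_left _ (mem_filter.mpr ⟨mem_filter.mpr ⟨h2, h4⟩, h3⟩)
    · push Not at h4
      exact mem_union_right _ (mem_filter.mpr ⟨h2, h3, fun v hv => h4 v hv x (h3 hx)⟩)
  have h2 := (card_le_card h1).trans (card_union_le _ _)
  refine h2.trans ?_
  unfold degr
  refine Nat.add_le_add_left ?_ _
  have h3 : (((univ : Finset (Fin n)).powersetCard (d + 2)).filter fun e => X ⊆ e ∧ ∀ v ∈ e,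
        cm k v = cm k x).card ≤
      (((univ : Finset (Fin n)).filter fun v => cm k v = cm k x).powersetCard d).card := by
    refine card_le_card_of_injOn (fun e => e \ X) ?_ ?_
    · intro e he
      obtain ⟨h4, h5, h6⟩ := mem_filter.mp (mem_coe.mp he)
      have h7 := (mem_powersetCard.mp h4).2
      refine mem_coe.mpr (mem_powersetCard.mpr ⟨?_, ?_⟩)
      · intro v hv
        exact mem_filter.mpr ⟨mem_univ _, h6 v (mem_sdiff.mp hv).1⟩
      · have h8 : (e \ X).card = e.card - X.card := card_sdiff_of_subset h5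
        change (e \ X).card = d
        omega
    · intro e he f hf hef
      obtain ⟨-, h5, -⟩ := mem_filter.mp (mem_coe.mp he)
      obtain ⟨-, h6, -⟩ := mem_filter.mp (mem_coe.mp hf)
      have hef' : e \ X = f \ X := hef
      rw [← sdiff_union_of_subset h5, ← sdiff_union_of_subset h6, hef']
  refine h3.trans ?_
  rw [card_powersetCard]
  exact Nat.choose_le_choose _ (class_card n k _)

open Filter Topology in
theorem ratio_lim (d k : ℕ) (hk : 1 ≤ k) {δ : ℝ} (hδ : 0 < δ) : ∃ N : ℕ, ∀ n : ℕ, N ≤ n →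
    ((n / k + 1 : ℕ).choose d : ℝ) ≤ (1 / (k : ℝ) ^ d + δ) * ((n - 2).choose d : ℝ) := by
  have hk0 : (0 : ℝ) < k := by exact_mod_cast hk
  have hlim : Tendsto (fun n : ℕ => ((1 / (k : ℝ) + 1 / (n : ℝ)) / (1 - ((d : ℝ) + 1) / n)) ^ d)
      atTop (𝓝 (((1 / (k : ℝ) + 0) / (1 - 0)) ^ d)) := by
    refine Tendsto.pow (Tendsto.div ?_ ?_ (by norm_num)) d
    · exact tendsto_const_nhds.add (tendsto_const_div_atTop_nhds_zero_nat 1)
    · exact tendsto_const_nhds.sub (tendsto_const_div_atTop_nhds_zero_nat _)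
  have e0 : ((1 / (k : ℝ) + 0) / (1 - 0)) ^ d = 1 / (k : ℝ) ^ d := by
    rw [add_zero, sub_zero, div_one, div_pow, one_pow]
  rw [e0] at hlim
  obtain ⟨N, hN⟩ := eventually_atTop.mp (hlim.eventually_lt_const
    (show 1 / (k : ℝ) ^ d < 1 / (k : ℝ) ^ d + δ by linarith))
  refine ⟨max N (d + 3), fun n hn => ?_⟩
  have h1 := (hN n ((le_max_left _ _).trans hn)).le
  have hnd : d + 3 ≤ n := (le_max_right _ _).trans hn
  have hn0 : (0 : ℝ) < n := by exact_mod_cast (by omega : 0 < n)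
  have hm0 : (0 : ℝ) < (n : ℝ) - (d + 1) := by
    have : ((d + 3 : ℕ) : ℝ) ≤ n := by exact_mod_cast hnd
    push_cast at this
    linarith
  have e1 : (1 / (k : ℝ) + 1 / (n : ℝ)) / (1 - ((d : ℝ) + 1) / n) =
      ((n : ℝ) / k + 1) / (n - (d + 1)) := by
    have : 1 - ((d : ℝ) + 1) / n = (n - (d + 1)) / n := by field_simp
    rw [this]
    field_simp
  rw [e1, div_pow, div_le_iff₀ (by positivity)] at h1
  have h2 := Nat.choose_le_pow_div (α := ℝ) d (n / k + 1)
  have h3 := Nat.pow_le_choose (α := ℝ) d (n - 2)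
  have e2 : ((n - 2 + 1 - d : ℕ) : ℝ) = (n : ℝ) - (d + 1) := by
    have : n - 2 + 1 - d = n - (d + 1) := by omega
    rw [this, Nat.cast_sub (by omega)]
    push_cast
    ring
  rw [e2] at h3
  refine h2.trans ?_
  have h4 : ((n / k + 1 : ℕ) : ℝ) ≤ (n : ℝ) / k + 1 := by
    have : ((n / k : ℕ) : ℝ) ≤ (n : ℝ) / k := Nat.cast_div_le
    push_cast
    linarith
  have h5 : ((n / k + 1 : ℕ) : ℝ) ^ d ≤ (1 / (k : ℝ) ^ d + δ) * ((n : ℝ) - (d + 1)) ^ d :=
    (pow_le_pow_left₀ (Nat.cast_nonneg _) h4 d).trans h1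
  have hf : (0 : ℝ) < (d.factorial : ℝ) := by exact_mod_cast Nat.factorial_pos d
  have hc : (0 : ℝ) ≤ 1 / (k : ℝ) ^ d + δ := by positivity
  calc ((n / k + 1 : ℕ) : ℝ) ^ d / (d.factorial : ℝ)
      ≤ (1 / (k : ℝ) ^ d + δ) * ((n : ℝ) - (d + 1)) ^ d / (d.factorial : ℝ) :=
        div_le_div_of_nonneg_right h5 hf.le
    _ = (1 / (k : ℝ) ^ d + δ) * (((n : ℝ) - (d + 1)) ^ d / (d.factorial : ℝ)) := by ring
    _ ≤ _ := mul_le_mul_of_nonneg_left h3 hc

open Filter Topology in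
theorem exists_delta (a p ε : ℝ) (ha : a ≤ 1) (hp : 1 ≤ p) (hε : 0 < ε) :
    ∃ δ : ℝ, 0 < δ ∧ (1 - a) ^ p - ε ≤ (max (1 - a - δ) 0) ^ p := by
  have hc : Continuous fun δ : ℝ => (max (1 - a - δ) 0) ^ p := by
    refine Continuous.rpow_const ?_ fun x => Or.inr (by linarith)
    exact (continuous_const.sub continuous_id).max continuous_const
  have h1 : Tendsto (fun δ : ℝ => (max (1 - a - δ) 0) ^ p) (𝓝 0) (𝓝 ((max (1 - a - 0) 0) ^ p)) :=
    hc.tendsto 0
  rw [sub_zero, max_eq_left (by linarith : (0 : ℝ) ≤ 1 - a)] at h1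
  have h2 := h1.eventually_const_lt (show (1 - a) ^ p - ε < (1 - a) ^ p by linarith)
  have h3 : ∀ᶠ δ : ℝ in 𝓝[>] 0, 0 < δ ∧ (1 - a) ^ p - ε < (max (1 - a - δ) 0) ^ p := by
    filter_upwards [self_mem_nhdsWithin, h2.filter_mono nhdsWithin_le_nhds] with δ h4 h5
    exact ⟨h4, h5⟩
  obtain ⟨δ, h4, h5⟩ := h3.exists
  exact ⟨δ, h4, h5.le⟩

theorem main : S_LO := by
  intro d k hd hk p hp ε hε
  have hk0 : (0 : ℝ) < k := by exact_mod_cast hk
  have hk1 : (1 : ℝ) ≤ k := by exact_mod_cast hk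
  obtain ⟨a, ha⟩ : ∃ a : ℝ, a = 1 / (k : ℝ) ^ d := ⟨_, rfl⟩
  have ha0 : 0 < a := by rw [ha]; positivity
  have ha1 : a ≤ 1 := by
    rw [ha, div_le_one (by positivity)]
    exact one_le_pow₀ hk1
  obtain ⟨δ, hδ, hδ1⟩ := exists_delta a p (ε / 4) ha1 hp (by positivity)
  obtain ⟨g, hg⟩ : ∃ g : ℝ, g = (1 - a) ^ p - ε / 4 := ⟨_, rfl⟩
  have hg0 : (0 : ℝ) ≤ (1 - a) ^ p := Real.rpow_nonneg (by linarith) _
  have hg1 : (1 - a) ^ p ≤ 1 := Real.rpow_le_one (by linarith) (by linarith) (by linarith)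
  obtain ⟨η, hη⟩ : ∃ η : ℝ, η = ε / (4 * (1 + ε)) := ⟨_, rfl⟩
  have hη0 : 0 < η := by rw [hη]; positivity
  have hη1 : η * (1 + ε) = ε / 4 := by rw [hη]; field_simp
  obtain ⟨N1, hN1⟩ := ratio_lim d k hk hδ
  obtain ⟨N2, hN2⟩ := TC_lower 0 k hk hη0
  refine ⟨max (max N1 N2) (d + 3), fun n hn => ?_⟩
  have hnd : d + 3 ≤ n := (le_max_right _ _).trans hn
  have h1 := hN1 n ((le_max_left _ _).trans ((le_max_left _ _).trans hn))
  have h2 := hN2 n ((le_max_right _ _).trans ((le_max_left _ _).trans hn))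
  rw [zero_add, zero_add, pow_one] at h2
  rw [← ha] at h1
  have hC0 : (0 : ℝ) < ((n - 2).choose d : ℝ) := by
    exact_mod_cast Nat.choose_pos (by omega)
  have hterm : ∀ X ∈ (univ : Finset (Fin n)).powersetCard 2,
      (if X ∈ TC 2 (cm k : Fin n → ℕ) then 1 - g else 0) + g ≤
      ((degr (TC (d + 2) (cm k : Fin n → ℕ)) X : ℝ) / ((n - 2).choose (d + 2 - 2) : ℝ)) ^ p := by
    intro X hX
    have hXc := (mem_powersetCard.mp hX).2
    rw [show d + 2 - 2 = d by omega]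
    by_cases hXT : X ∈ TC 2 (cm k : Fin n → ℕ)
    · rw [if_pos hXT, degr_cross hXT (by omega : 2 ≤ d + 2), show d + 2 - 2 = d by omega,
        div_self hC0.ne', Real.one_rpow]
      linarith
    · rw [if_neg hXT, zero_add, hg]
      refine hδ1.trans (Real.rpow_le_rpow (le_max_right _ _) ?_ (by linarith))
      refine max_le ?_ (by positivity)
      rw [le_div_iff₀ hC0]
      have h3 : ((n - 2).choose d : ℝ) ≤ (degr (TC (d + 2) (cm k : Fin n → ℕ)) X : ℝ) +
          ((n / k + 1 : ℕ).choose d : ℝ) := by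
        exact_mod_cast degr_any (k := k) hXc
      nlinarith
  have hsum := sum_le_sum hterm
  rw [sum_add_distrib, sum_const, card_powersetCard, card_univ, Fintype.card_fin,
    nsmul_eq_mul] at hsum
  have h3 : (∑ X ∈ (univ : Finset (Fin n)).powersetCard 2,
      (if X ∈ TC 2 (cm k : Fin n → ℕ) then 1 - g else 0)) =
      ((TC 2 (cm k : Fin n → ℕ)).card : ℝ) * (1 - g) := by
    rw [sum_ite_mem, sum_const, nsmul_eq_mul]
    have e : (univ : Finset (Fin n)).powersetCard 2 ∩ TC 2 (cm k : Fin n → ℕ) =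
        TC 2 (cm k : Fin n → ℕ) := by
      refine inter_eq_right.mpr fun X hX => ?_
      exact (mem_filter.mp hX).1
    rw [e]
  rw [h3] at hsum
  unfold nsum
  refine le_trans ?_ hsum
  have hn0 : (0 : ℝ) ≤ (n.choose 2 : ℝ) := Nat.cast_nonneg _
  have h4 : (1 - 1 / (k : ℝ) - η) * (n.choose 2 : ℝ) * (1 - g) ≤
      ((TC 2 (cm k : Fin n → ℕ)).card : ℝ) * (1 - g) :=
    mul_le_mul_of_nonneg_right h2 (by linarith)
  have h5 : phi d k p - ε ≤ (1 - 1 / (k : ℝ) - η) * (1 - g) + g := by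
    unfold phi
    rw [← ha]
    have h6 : η * (1 - g) ≤ ε / 4 := by
      rw [← hη1]
      exact mul_le_mul_of_nonneg_left (by linarith) hη0.le
    have h7 : 1 / (k : ℝ) * (ε / 4) ≤ 1 * (ε / 4) := by
      refine mul_le_mul_of_nonneg_right ?_ (by positivity)
      rw [div_le_one hk0]
      exact hk1
    have e1 : (1 - 1 / (k : ℝ) - η) * (1 - g) + g =
        (1 - 1 / (k : ℝ)) + 1 / (k : ℝ) * (1 - a) ^ p - 1 / (k : ℝ) * (ε / 4) - η * (1 - g) := by
      rw [hg]; ring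
    rw [e1]
    linarith
  have h8 := mul_le_mul_of_nonneg_right h5 hn0
  nlinarith

end Pool.Agent.N704.NT.LO
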