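import Pool.Agent.N594.NT.Stm3

/-!
# NT/XOPT (helper704, project NT of helper594): equal parts are optimal, exact version
-/

set_option autoImplicit false

open Finset Filter Topology
open scoped Classical

namespace Pool.Agent.N704.NT.XOPT

open Pool.Agent.N594.NT

lemma lim2 {b : ℝ} (hb : 0 < b) (hb1 : b < 1) :
    Tendsto (fun p : ℝ => p ^ 2 * b ^ p) atTop (𝓝 0) := by
  have hc : 0 < - Real.log b := by
    have := Real.log_neg hb hb1
    linarith
  have h := tendsto_rpow_mul_exp_neg_mul_atTop_nhds_zero 2 (- Real.log b) hc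
  refine h.congr' ?_
  filter_upwards with p
  rw [Real.rpow_def_of_pos hb]
  congr 1
  · norm_num
  · congr 1
    ring

/-- the tangents of a power -/
lemma tan {u v q : ℝ} (hv : 0 < v) (huv : v ≤ u) (hq : 1 ≤ q) :
    q * v ^ (q - 1) * (u - v) ≤ u ^ q - v ^ q ∧ u ^ q - v ^ q ≤ q * u ^ (q - 1) * (u - v) := by
  have hu : 0 < u := by linarith
  have e1 : ∀ x : ℝ, 0 < x → x ^ q = x * x ^ (q - 1) := by
    intro x hx
    rw [Real.rpow_sub_one hx.ne']
    field_simp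
  constructor
  · have h1 := one_add_mul_self_le_rpow_one_add (s := (u - v) / v)
      (by have : 0 ≤ (u - v) / v := div_nonneg (by linarith) hv.le
          linarith) hq
    have h2 : 1 + (u - v) / v = u / v := by field_simp; ring
    rw [h2, Real.div_rpow hu.le hv.le, le_div_iff₀ (Real.rpow_pos_of_pos hv _)] at h1
    have h3 : (1 + q * ((u - v) / v)) * v ^ q = v ^ q + q * v ^ (q - 1) * (u - v) := by
      rw [e1 v hv]
      field_simp
    linarith
  · have h1 := one_add_mul_self_le_rpow_one_add (s := -((u - v) / u))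
      (by have : (u - v) / u ≤ 1 := by rw [div_le_one hu]; linarith
          linarith) hq
    have h2 : 1 + -((u - v) / u) = v / u := by field_simp; ring
    rw [h2, Real.div_rpow hv.le hu.le, le_div_iff₀ (Real.rpow_pos_of_pos hu _)] at h1
    have h3 : (1 + q * -((u - v) / u)) * u ^ q = u ^ q - q * u ^ (q - 1) * (u - v) := by
      rw [e1 u hu]
      field_simp
      ring
    linarith

/-- the second difference of the powers -/
lemma sec {x0 x1 x2 a p : ℝ} (h01 : x0 ≤ x1) (h12 : x1 - x0 ≤ x2 - x1) (h2 : x2 < 1)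
    (ha : a ≤ x0) (hp : 2 ≤ p) :
    (1 - x0) ^ p - 2 * (1 - x1) ^ p + (1 - x2) ^ p ≤
      2 * (x1 - x0) ^ 2 * p ^ 2 * (1 - a) ^ (p - 2) := by
  obtain ⟨h, hh⟩ : ∃ h : ℝ, h = x1 - x0 := ⟨_, rfl⟩
  have hh0 : 0 ≤ h := by linarith
  have b0 : 0 < 1 - x1 - h := by linarith
  have t1 := (tan (u := 1 - x0) (v := 1 - x1) (q := p) (by linarith) (by linarith) (by linarith)).2
  have t2 := (tan (u := 1 - x1) (v := 1 - x1 - h) (q := p) b0 (by linarith) (by linarith)).1
  have t3 := (tan (u := 1 - x0) (v := 1 - x1 - h) (q := p - 1) b0 (by linarith) (by linarith)).2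
  have t4 : (1 - x2) ^ p ≤ (1 - x1 - h) ^ p :=
    Real.rpow_le_rpow (by linarith) (by linarith) (by linarith)
  have t5 : (1 - x0) ^ (p - 2) ≤ (1 - a) ^ (p - 2) :=
    Real.rpow_le_rpow (by linarith) (by linarith) (by linarith)
  have e1 : p - 1 - 1 = p - 2 := by ring
  rw [e1] at t3
  have e2 : 1 - x0 - (1 - x1) = h := by rw [hh]; ring
  have e3 : 1 - x1 - (1 - x1 - h) = h := by ring
  have e4 : 1 - x0 - (1 - x1 - h) = 2 * h := by rw [hh]; ring
  rw [e2] at t1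
  rw [e3] at t2
  rw [e4] at t3
  have c0 : 0 ≤ (1 - x0) ^ (p - 2) := Real.rpow_nonneg (by linarith) _
  have c1 : (1 - x0) ^ p - 2 * (1 - x1) ^ p + (1 - x2) ^ p ≤
      p * h * ((1 - x0) ^ (p - 1) - (1 - x1 - h) ^ (p - 1)) := by
    nlinarith
  have c2 : p * h * ((1 - x0) ^ (p - 1) - (1 - x1 - h) ^ (p - 1)) ≤
      p * h * ((p - 1) * (1 - x0) ^ (p - 2) * (2 * h)) :=
    mul_le_mul_of_nonneg_left t3 (by positivity)
  have c3 : p * h * ((p - 1) * (1 - x0) ^ (p - 2) * (2 * h)) =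
      2 * h ^ 2 * (p * (p - 1)) * (1 - x0) ^ (p - 2) := by ring
  have c4 : 2 * h ^ 2 * (p * (p - 1)) * (1 - x0) ^ (p - 2) ≤
      2 * h ^ 2 * p ^ 2 * (1 - a) ^ (p - 2) := by
    have k1 : p * (p - 1) ≤ p ^ 2 := by nlinarith
    have k2 : 2 * h ^ 2 * (p * (p - 1)) ≤ 2 * h ^ 2 * p ^ 2 :=
      mul_le_mul_of_nonneg_left k1 (by positivity)
    exact mul_le_mul k2 t5 c0 (by positivity)
  rw [← hh]
  linarith

lemma desc_step (e m : ℕ) : (m + 1).descFactorial (e + 1) =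
    m.descFactorial (e + 1) + (e + 1) * m.descFactorial e := by
  rw [Nat.succ_descFactorial_succ, Nat.descFactorial_succ]
  rcases Nat.lt_or_ge m e with h | h
  · rw [Nat.descFactorial_of_lt h]; simp
  · obtain ⟨t, rfl⟩ := Nat.exists_eq_add_of_le h
    rw [Nat.add_sub_cancel_left]
    ring

/-- the second difference of the loss is positive -/
theorem pos (e k : ℕ) (hk : 2 ≤ k) : ∃ p₀ : ℝ, 2 ≤ p₀ ∧ ∃ N : ℕ, ∀ p : ℝ, p₀ ≤ p →
    ∀ n : ℕ, N ≤ n → ∀ m : ℕ, n ≤ 2 * k * m → m + 2 < n →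
    0 < gq n (e + 1) p (m + 2) - 2 * gq n (e + 1) p (m + 1) + gq n (e + 1) p m := by
  have hk0 : (0 : ℝ) < k := by exact_mod_cast (by omega : 0 < k)
  have hk2 : (2 : ℝ) ≤ k := by exact_mod_cast hk
  obtain ⟨a, ha⟩ : ∃ a : ℝ, a = (1 / (4 * (k : ℝ))) ^ (e + 1) := ⟨_, rfl⟩
  have ha0 : 0 < a := by rw [ha]; positivity
  have h14 : 1 / (4 * (k : ℝ)) ≤ 1 / 8 := by
    apply one_div_le_one_div_of_le <;> linarith
  have ha1 : a ≤ 1 / 8 := by
    rw [ha]
    have := pow_le_pow_of_le_one (show 0 ≤ 1 / (4 * (k : ℝ)) by positivity) (by linarith)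
      (show 1 ≤ e + 1 by omega)
    rw [pow_one] at this
    linarith
  obtain ⟨b, hb⟩ : ∃ b : ℝ, b = 1 - a := ⟨_, rfl⟩
  have hb0 : 0 < b := by linarith
  have hb1 : b < 1 := by linarith
  obtain ⟨C, hC⟩ : ∃ C : ℝ, C = ((e : ℝ) + 1) * 2 ^ (e + 1) := ⟨_, rfl⟩
  have hC0 : 0 < C := by rw [hC]; positivity
  have l1 : Tendsto (fun p : ℝ => b ^ p) atTop (𝓝 0) :=
    tendsto_rpow_atTop_of_base_lt_one b (by linarith) hb1
  have l2 : Tendsto (fun p : ℝ => 2 * C ^ 2 * (p ^ 2 * b ^ p) / b ^ 2 + 2 * b ^ p) atTop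
      (𝓝 0) := by
    have := ((((lim2 hb0 hb1).const_mul (2 * C ^ 2)).div_const (b ^ 2)).add (l1.const_mul 2))
    simpa using this
  have ev : ∀ᶠ p : ℝ in atTop, 2 ≤ p ∧ 2 * C ^ 2 * (p ^ 2 * b ^ p) / b ^ 2 + 2 * b ^ p < 2 := by
    filter_upwards [eventually_ge_atTop (2 : ℝ),
      l2.eventually_lt_const (by norm_num : (0 : ℝ) < 2)] with p h1 h2
    exact ⟨h1, h2⟩
  obtain ⟨p₀, hp₀⟩ := eventually_atTop.1 ev
  refine ⟨max p₀ 2, le_max_right _ _, 4 * k * (e + 4), fun p hp n hn m hm hmn => ?_⟩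
  obtain ⟨hp2, hpl⟩ := hp₀ p ((le_max_left _ _).trans hp)
  -- sizes
  have hm1 : 2 * (e + 4) ≤ m := by
    by_contra hcon
    push Not at hcon
    have : 2 * k * m < 2 * k * (2 * (e + 4)) := Nat.mul_lt_mul_of_pos_left hcon (by omega)
    nlinarith
  obtain ⟨t, rfl⟩ : ∃ t, m = t + 2 := ⟨m - 2, by omega⟩
  have hn8 : 8 * (e + 4) ≤ n := by
    have : 4 * 2 * (e + 4) ≤ 4 * k * (e + 4) := Nat.mul_le_mul_right _ (Nat.mul_le_mul_left _ hk)
    omega
  have hn0 : (0 : ℝ) < n := by exact_mod_cast (by omega : 0 < n)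
  obtain ⟨Q, hQ⟩ : ∃ Q : ℝ, Q = ((n - 2).descFactorial (e + 1) : ℝ) := ⟨_, rfl⟩
  have hQ1 : ((n : ℝ) / 2) ^ (e + 1) ≤ Q := by
    rw [hQ]
    have h1 := Nat.pow_sub_le_descFactorial (n - 2) (e + 1)
    have h2 : ((n : ℝ) / 2) ≤ ((n - 2 + 1 - (e + 1) : ℕ) : ℝ) := by
      have h3 : n ≤ 2 * (n - 2 + 1 - (e + 1)) := by omega
      have h4 : (n : ℝ) ≤ 2 * ((n - 2 + 1 - (e + 1) : ℕ) : ℝ) := by exact_mod_cast h3
      linarith
    have h5 : (((n - 2 + 1 - (e + 1)) ^ (e + 1) : ℕ) : ℝ) ≤ ((n - 2).descFactorial (e + 1) : ℝ) := by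
      exact_mod_cast h1
    rw [Nat.cast_pow] at h5
    exact (pow_le_pow_left₀ (by positivity) h2 _).trans h5
  have hQ0 : 0 < Q := lt_of_lt_of_le (by positivity) hQ1
  have hQ2 : Q ≤ (n : ℝ) ^ (e + 1) := by
    rw [hQ]
    have h1 := (Nat.descFactorial_le_pow (n - 2) (e + 1)).trans
      (Nat.pow_le_pow_left (Nat.sub_le n 2) (e + 1))
    exact_mod_cast h1
  obtain ⟨x0, hx0⟩ : ∃ x : ℝ, x = (t.descFactorial (e + 1) : ℝ) / Q := ⟨_, rfl⟩
  obtain ⟨x1, hx1⟩ : ∃ x : ℝ, x = ((t + 1).descFactorial (e + 1) : ℝ) / Q := ⟨_, rfl⟩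
  obtain ⟨x2, hx2⟩ : ∃ x : ℝ, x = ((t + 2).descFactorial (e + 1) : ℝ) / Q := ⟨_, rfl⟩
  have d1 : x1 - x0 = ((e : ℝ) + 1) * (t.descFactorial e : ℝ) / Q := by
    rw [hx1, hx0, desc_step]
    push_cast
    ring
  have d2 : x2 - x1 = ((e : ℝ) + 1) * ((t + 1).descFactorial e : ℝ) / Q := by
    rw [hx2, hx1, desc_step e (t + 1)]
    push_cast
    ring
  have h01 : x0 ≤ x1 := by
    have : 0 ≤ x1 - x0 := by rw [d1]; positivity
    linarith
  have h12 : x1 - x0 ≤ x2 - x1 := by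
    rw [d1, d2]
    have h1 : (t.descFactorial e : ℝ) ≤ ((t + 1).descFactorial e : ℝ) := by
      exact_mod_cast Nat.descFactorial_le e (Nat.le_succ t)
    gcongr
  have h2 : x2 < 1 := by
    rw [hx2, div_lt_one hQ0, hQ]
    have h1 : (t + 2).descFactorial (e + 1) < (n - 2).descFactorial (e + 1) := by
      have h3 : (t + 2) + 1 ≤ n - 2 := by omega
      have h4 := Nat.descFactorial_le (e + 1) h3
      have h5 := desc_step e (t + 2)
      have h6 : 0 < (t + 2).descFactorial e := Nat.descFactorial_pos.2 (by omega)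
      have h7 : 0 < (e + 1) * (t + 2).descFactorial e := by positivity
      omega
    exact_mod_cast h1
  have hxa : a ≤ x0 := by
    rw [hx0, le_div_iff₀ hQ0]
    have h1 := Nat.pow_sub_le_descFactorial t (e + 1)
    have h5 : (((t + 1 - (e + 1)) ^ (e + 1) : ℕ) : ℝ) ≤ (t.descFactorial (e + 1) : ℝ) := by
      exact_mod_cast h1
    rw [Nat.cast_pow] at h5
    have h3 : n ≤ 4 * k * (t + 1 - (e + 1)) := by
      obtain ⟨s, hs⟩ : ∃ s, t = s + e := ⟨t - e, by omega⟩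
      have h6 : t + 1 - (e + 1) = s := by omega
      rw [h6]
      have h7 : t + 2 ≤ 2 * s := by omega
      have h8 : 2 * k * (t + 2) ≤ 2 * k * (2 * s) := Nat.mul_le_mul_left _ h7
      have h9 : 2 * k * (2 * s) = 4 * k * s := by ring
      omega
    have h4 : (n : ℝ) ≤ 4 * k * ((t + 1 - (e + 1) : ℕ) : ℝ) := by exact_mod_cast h3
    have h6 : 1 / (4 * (k : ℝ)) * n ≤ ((t + 1 - (e + 1) : ℕ) : ℝ) := by
      rw [one_div, inv_mul_le_iff₀ (by positivity)]
      exact h4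
    calc a * Q ≤ a * (n : ℝ) ^ (e + 1) := mul_le_mul_of_nonneg_left hQ2 ha0.le
      _ = (1 / (4 * (k : ℝ)) * n) ^ (e + 1) := by rw [ha, mul_pow]
      _ ≤ _ := (pow_le_pow_left₀ (by positivity) h6 _).trans h5
  have hh : (n : ℝ) * (x1 - x0) ≤ C := by
    rw [d1]
    have h1 : (t.descFactorial e : ℝ) ≤ (n : ℝ) ^ e := by
      have h3 := (Nat.descFactorial_le_pow t e).trans (Nat.pow_le_pow_left (show t ≤ n by omega) e)
      exact_mod_cast h3
    rw [← mul_div_assoc, div_le_iff₀ hQ0]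
    have h2 : (n : ℝ) * (((e : ℝ) + 1) * (t.descFactorial e : ℝ)) ≤
        (n : ℝ) * (((e : ℝ) + 1) * (n : ℝ) ^ e) := by gcongr
    have h3 : (n : ℝ) * (((e : ℝ) + 1) * (n : ℝ) ^ e) = C * ((n : ℝ) / 2) ^ (e + 1) := by
      rw [hC, div_pow, pow_succ (n : ℝ) e]
      field_simp
    rw [h3] at h2
    exact h2.trans (mul_le_mul_of_nonneg_left hQ1 hC0.le)
  have hS := sec (p := p) h01 h12 h2 hxa hp2
  rw [← hb] at hS
  obtain ⟨w0, hw0⟩ : ∃ w : ℝ, w = (1 - x0) ^ p := ⟨_, rfl⟩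
  obtain ⟨w1, hw1⟩ : ∃ w : ℝ, w = (1 - x1) ^ p := ⟨_, rfl⟩
  obtain ⟨w2, hw2⟩ : ∃ w : ℝ, w = (1 - x2) ^ p := ⟨_, rfl⟩
  have hw12 : w2 ≤ w1 := by
    rw [hw1, hw2]
    exact Real.rpow_le_rpow (by linarith) (by linarith) (by linarith)
  have hw1b : w1 ≤ b ^ p := by
    rw [hw1, hb]
    exact Real.rpow_le_rpow (by linarith) (by linarith) (by linarith)
  rw [← hw0, ← hw1, ← hw2] at hS
  have g0 : gq n (e + 1) p (t + 2) = ((t : ℝ) + 2) * ((t : ℝ) + 1) * (1 - w0) := by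
    unfold gq
    rw [hw0, hx0, hQ, show t + 2 - 2 = t by omega]
    push_cast
    ring
  have g1 : gq n (e + 1) p (t + 2 + 1) = ((t : ℝ) + 3) * ((t : ℝ) + 2) * (1 - w1) := by
    unfold gq
    rw [hw1, hx1, hQ, show t + 2 + 1 - 2 = t + 1 by omega]
    push_cast
    ring
  have g2 : gq n (e + 1) p (t + 2 + 2) = ((t : ℝ) + 4) * ((t : ℝ) + 3) * (1 - w2) := by
    unfold gq
    rw [hw2, hx2, hQ, show t + 2 + 2 - 2 = t + 2 by omega]
    push_cast
    ring
  rw [g0, g1, g2]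
  have e0 : ((t : ℝ) + 4) * ((t : ℝ) + 3) * (1 - w2) - 2 * (((t : ℝ) + 3) * ((t : ℝ) + 2) * (1 - w1)) +
      ((t : ℝ) + 2) * ((t : ℝ) + 1) * (1 - w0) = 2 * (1 - w1) +
      (((t : ℝ) + 4) * ((t : ℝ) + 3) - ((t : ℝ) + 2) * ((t : ℝ) + 1)) * (w1 - w2) -
      ((t : ℝ) + 2) * ((t : ℝ) + 1) * (w0 - 2 * w1 + w2) := by ring
  rw [e0]
  have ht0 : (0 : ℝ) ≤ t := Nat.cast_nonneg t
  have i1 : 0 ≤ (((t : ℝ) + 4) * ((t : ℝ) + 3) - ((t : ℝ) + 2) * ((t : ℝ) + 1)) * (w1 - w2) := by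
    apply mul_nonneg _ (by linarith)
    nlinarith
  have hbp : 0 ≤ b ^ (p - 2) := Real.rpow_nonneg hb0.le _
  have i2 : ((t : ℝ) + 2) * ((t : ℝ) + 1) * (w0 - 2 * w1 + w2) ≤
      2 * C ^ 2 * (p ^ 2 * b ^ (p - 2)) := by
    have j1 : ((t : ℝ) + 2) * ((t : ℝ) + 1) * (w0 - 2 * w1 + w2) ≤
        ((t : ℝ) + 2) * ((t : ℝ) + 1) * (2 * (x1 - x0) ^ 2 * p ^ 2 * b ^ (p - 2)) :=
      mul_le_mul_of_nonneg_left hS (by positivity)
    have j2 : ((t : ℝ) + 2) * ((t : ℝ) + 1) ≤ (n : ℝ) ^ 2 := by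
      have : (t : ℝ) + 4 ≤ n := by exact_mod_cast (by omega : t + 4 ≤ n)
      nlinarith
    have j3 : ((t : ℝ) + 2) * ((t : ℝ) + 1) * (2 * (x1 - x0) ^ 2 * p ^ 2 * b ^ (p - 2)) ≤
        (n : ℝ) ^ 2 * (2 * (x1 - x0) ^ 2 * p ^ 2 * b ^ (p - 2)) :=
      mul_le_mul_of_nonneg_right j2 (by positivity)
    have j4 : (n : ℝ) ^ 2 * (2 * (x1 - x0) ^ 2 * p ^ 2 * b ^ (p - 2)) =
        2 * ((n : ℝ) * (x1 - x0)) ^ 2 * (p ^ 2 * b ^ (p - 2)) := by ring
    have j5 : ((n : ℝ) * (x1 - x0)) ^ 2 ≤ C ^ 2 :=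
      pow_le_pow_left₀ (mul_nonneg hn0.le (by linarith)) hh 2
    have j6 : 2 * ((n : ℝ) * (x1 - x0)) ^ 2 * (p ^ 2 * b ^ (p - 2)) ≤
        2 * C ^ 2 * (p ^ 2 * b ^ (p - 2)) :=
      mul_le_mul_of_nonneg_right (by linarith) (by positivity)
    linarith
  have e5 : b ^ (p - 2) = b ^ p / b ^ 2 := by
    rw [Real.rpow_sub hb0]
    norm_num
  have e6 : 2 * C ^ 2 * (p ^ 2 * b ^ (p - 2)) = 2 * C ^ 2 * (p ^ 2 * b ^ p) / b ^ 2 := by
    rw [e5]; ring
  rw [e6] at i2
  linarith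

/-- moving one element -/
lemma move {k : ℕ} (F : ℕ → ℝ) (r : Fin k → ℕ) {i j : Fin k} (hij : i ≠ j) (a b : ℕ) :
    ∑ l, F ((Function.update (Function.update r i a) j b) l) =
      ∑ l, F (r l) + (F a - F (r i)) + (F b - F (r j)) := by
  have h : ∑ l, (F ((Function.update (Function.update r i a) j b) l) - F (r l)) =
      (F a - F (r i)) + (F b - F (r j)) := by
    rw [Fintype.sum_eq_add i j hij]
    · rw [Function.update_self, Function.update_of_ne hij, Function.update_self]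
    · rintro x ⟨h1, h2⟩
      rw [Function.update_of_ne h2, Function.update_of_ne h1, sub_self]
  rw [Finset.sum_sub_distrib] at h
  linarith

/-- all balanced sequences have the same sum -/
lemma bal {k : ℕ} (hk : 0 < k) (F : ℕ → ℝ) (r : Fin k → ℕ) (hr : ∀ i j, r i ≤ r j + 1) :
    ∑ l, F (r l) = ((∑ l, r l) % k : ℕ) * F ((∑ l, r l) / k + 1) +
      ((k : ℝ) - ((∑ l, r l) % k : ℕ)) * F ((∑ l, r l) / k) := by
  have : Nonempty (Fin k) := ⟨⟨0, hk⟩⟩
  obtain ⟨j0, -, hj0⟩ := Finset.exists_min_image (univ : Finset (Fin k)) r univ_nonempty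
  obtain ⟨m, hm⟩ : ∃ m, m = r j0 := ⟨_, rfl⟩
  obtain ⟨c, hc⟩ : ∃ c, c = (univ.filter fun l : Fin k => r l = m + 1).card := ⟨_, rfl⟩
  have h1 : ∀ l, r l = m + if r l = m + 1 then 1 else 0 := by
    intro l
    have h2 := hj0 l (mem_univ l)
    have h3 := hr l j0
    rw [← hm] at h2 h3
    split_ifs with h4 <;> omega
  have hck : c < k := by
    rw [hc]
    have : (univ.filter fun l : Fin k => r l = m + 1).card < (univ : Finset (Fin k)).card := by
      apply card_lt_card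
      rw [Finset.filter_ssubset]
      exact ⟨j0, mem_univ _, by omega⟩
    rwa [card_univ, Fintype.card_fin] at this
  have h2 : ∑ l, r l = k * m + c := by
    rw [sum_congr rfl fun l _ => h1 l, sum_add_distrib, sum_const, card_univ, Fintype.card_fin,
      smul_eq_mul, sum_boole, ← hc]
    simp
  have h3 : (∑ l, r l) / k = m := by
    rw [h2, Nat.mul_add_div hk, Nat.div_eq_of_lt hck, add_zero]
  have h4 : (∑ l, r l) % k = c := by
    rw [h2, Nat.mul_add_mod, Nat.mod_eq_of_lt hck]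
  rw [h3, h4]
  have h5 : ∀ l, F (r l) = F m + if r l = m + 1 then F (m + 1) - F m else 0 := by
    intro l
    have h6 := h1 l
    split_ifs with h4
    · rw [h4]; ring
    · rw [if_neg h4] at h6
      rw [h6]; ring
  rw [sum_congr rfl fun l _ => h5 l, sum_add_distrib, sum_const, card_univ, Fintype.card_fin,
    nsmul_eq_mul, ← sum_filter, sum_const, ← hc, nsmul_eq_mul]
  ring

theorem main : S_XOPT := by
  intro d k hd hk
  obtain ⟨e, rfl⟩ : ∃ e, d = e + 1 := ⟨d - 1, by omega⟩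
  obtain ⟨p₀, hp₀, N, hN⟩ := pos e k hk
  refine ⟨p₀, by linarith, max N 1, fun p hp n hn r s hr hs hr2 hs2 => ?_⟩
  have hnN : N ≤ n := (le_max_left _ _).trans hn
  have hn1 : 1 ≤ n := (le_max_right _ _).trans hn
  obtain ⟨g, hg⟩ : ∃ g : ℕ → ℝ, g = gq n (e + 1) p := ⟨_, rfl⟩
  rw [← hg]
  have hpos : ∀ m : ℕ, n ≤ 2 * k * m → m + 2 < n → g (m + 1) - g m < g (m + 2) - g (m + 1) := by
    intro m h1 h2
    have := hN p hp n hnN m h1 h2
    rw [← hg] at this
    linarith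
  have hinc : ∀ (b t : ℕ), n ≤ 2 * k * b → b + t + 2 < n →
      g (b + 1) - g b < g (b + t + 2) - g (b + t + 1) := by
    intro b t h1
    induction t with
    | zero => intro h2; exact hpos b h1 h2
    | succ t ih =>
      intro h2
      have h3 := ih (by omega)
      have h4 : n ≤ 2 * k * (b + t + 1) := h1.trans (Nat.mul_le_mul_left _ (by omega))
      have h5 := hpos (b + t + 1) h4 (by omega)
      have e1 : b + (t + 1) + 2 = b + t + 1 + 2 := by ring
      have e2 : b + (t + 1) + 1 = b + t + 1 + 1 := by ring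
      rw [e1, e2]
      have e3 : b + t + 1 + 1 = b + t + 2 := by ring
      rw [e3] at h5 ⊢
      linarith
  have key : ∀ M : ℕ, ∀ r : Fin k → ℕ, ∑ j, r j ^ 2 ≤ M → ∑ j, r j = n →
      (∀ j, n ≤ 2 * k * r j) → (∀ i j, r i ≤ r j + 1) ∨ ∑ j, g (s j) < ∑ j, g (r j) := by
    intro M
    induction M with
    | zero =>
      intro r h1 h2 _
      exfalso
      have h3 : ∀ j, r j = 0 := by
        intro j
        have h4 : r j ^ 2 ≤ ∑ l, r l ^ 2 :=
          single_le_sum (f := fun l => r l ^ 2) (fun _ _ => Nat.zero_le _) (mem_univ j)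
        have h5 : r j ^ 2 = 0 := by omega
        simpa using h5
      simp only [h3, sum_const_zero] at h2
      omega
    | succ M ih =>
      intro r h1 h2 h3
      by_cases hb : ∀ i j, r i ≤ r j + 1
      · exact Or.inl hb
      right
      push Not at hb
      obtain ⟨i, j, hij⟩ := hb
      have hne : i ≠ j := by
        rintro rfl
        omega
      obtain ⟨r', hr'⟩ : ∃ r' : Fin k → ℕ,
        r' = Function.update (Function.update r i (r i - 1)) j (r j + 1) := ⟨_, rfl⟩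
      have hs1 : ((∑ l, r' l : ℕ) : ℝ) = ((∑ l, r l : ℕ) : ℝ) := by
        have h4 := move (fun x => (x : ℝ)) r hne (r i - 1) (r j + 1)
        rw [← hr'] at h4
        push_cast at h4 ⊢
        rw [h4, Nat.cast_sub (by omega)]
        push_cast
        ring
      have hs2' : ((∑ l, r' l ^ 2 : ℕ) : ℝ) < ((∑ l, r l ^ 2 : ℕ) : ℝ) := by
        have h4 := move (fun x => (x : ℝ) ^ 2) r hne (r i - 1) (r j + 1)
        rw [← hr'] at h4
        have h5 : (r j : ℝ) + 2 ≤ r i := by exact_mod_cast (by omega : r j + 2 ≤ r i)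
        push_cast at h4 ⊢
        rw [h4, Nat.cast_sub (by omega)]
        push_cast
        nlinarith
      have hs1' : ∑ l, r' l = n := by
        rw [← h2]
        exact_mod_cast hs1
      have hs2'' : ∑ l, r' l ^ 2 ≤ M := by
        have : ∑ l, r' l ^ 2 < ∑ l, r l ^ 2 := by exact_mod_cast hs2'
        omega
      have hr3 : ∀ l, n ≤ 2 * k * r' l := by
        intro l
        rw [hr']
        by_cases hl : l = j
        · subst hl
          rw [Function.update_self]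
          exact (h3 l).trans (Nat.mul_le_mul_left _ (by omega))
        · rw [Function.update_of_ne hl]
          by_cases hl2 : l = i
          · subst hl2
            rw [Function.update_self]
            exact (h3 j).trans (Nat.mul_le_mul_left _ (by omega))
          · rw [Function.update_of_ne hl2]
            exact h3 l
      have hlt : ∑ l, g (r' l) < ∑ l, g (r l) := by
        have h4 := move g r hne (r i - 1) (r j + 1)
        rw [← hr'] at h4
        obtain ⟨t, ht⟩ : ∃ t, r i = r j + t + 2 := ⟨r i - r j - 2, by omega⟩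
        have h5 : r i + r j ≤ n := by
          rw [← h2]
          have h6 : ∑ l ∈ ({i, j} : Finset (Fin k)), r l ≤ ∑ l, r l :=
            sum_le_sum_of_subset (subset_univ _)
          rwa [sum_pair hne] at h6
        have h6 : 0 < r j := by
          rcases Nat.eq_zero_or_pos (r j) with h7 | h7
          · have h8 := h3 j
            rw [h7, mul_zero] at h8
            omega
          · exact h7
        have h7 := hinc (r j) t (h3 j) (by omega)
        have e1 : r i - 1 = r j + t + 1 := by omega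
        rw [h4, e1, ht]
        linarith
      rcases ih r' hs2'' hs1' hr3 with h4 | h4
      · have h5 : ∑ j, g (s j) = ∑ j, g (r' j) := by
          rw [bal (by omega) g s hs2, bal (by omega) g r' h4, hs, hs1']
        rw [h5]
        exact hlt
      · exact h4.trans hlt
  rcases key _ r le_rfl hr hr2 with h | h
  · refine ⟨?_, fun _ => h⟩
    rw [bal (by omega) g s hs2, bal (by omega) g r h, hs, hr]
  · exact ⟨h.le, fun h' => absurd h (not_lt.2 h')⟩

end Pool.Agent.N704.NT.XOPT
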